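import Pool.Agent.Results.MP_c40b92_nt.QuarticDoubleCovers
import Pool.Agent.N230.QT.Aff

/-!
# Archimedean unit balls: families of quadratic equations and quantifier-free formulas with few or
algebraic witnesses

Let `k` be a number field and let `σ : k → ℂ` be an embedding whose image is not contained in `ℝ`
(for a totally complex field this is every embedding), and let `B = {x ∈ k | |σ(x)| ≤ 1}` be the closed
unit ball. The starting results `CubicEquations` and `QuarticDoubleCovers` treat the sets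
`{x | ∃ z ∈ kⁿ, f(x, z) = 0}` with `f` over `k` of total degree at most three, and the sets of the values of a
rational function at the points of a product of affine spaces and smooth quartic double covers. Here we
consider in addition

* the sets `{x | ∃ w ∈ k, z ∈ kᵐ, g(x, w, z) = 0}` where `g` over `k` has degree at most two in `(x, z)` and
  any degree in `w` (families of quadrics over the line, of any kind: singular, reducible, without points);
* the sets `{x | ∃ w ∈ k, β(x, w)}` where `β` is any quantifier-free formula in the language of rings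
  with parameters in `k` (a Boolean combination of polynomial equations), that is, all existential
  formulas with one quantifier;
* the sets `{x | ∃ w ∈ kᶜ, β(x, w)}`, `β` quantifier-free, with any number of quantifiers, if the
  witnesses are algebraic over the field `k(x)`: for each `l` there is a polynomial `H ≠ 0` over `k` with
  `H(x, w_l) = 0` for all solutions.

(1) `B` is not a finite union of sets of all these kinds.

(2) If such a union `D` is contained in `B` then it is thin, and it is small everywhere in `k` for the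
absolute value of `σ`: for all `x₀ ∈ k` and `c ≠ 0` in `k` the set of the `s` with `x₀ + c / s ∈ D` is thin, and
there are arbitrarily large integers `m` such that `x₀ + c / m` is not in `D`. (For `|σ(x₀)| < 1` the elements
`x₀ + c / m` are in `B` for all large `m`, so the complement of `D` in `B` is dense in `B`.)

(3) If an equation `f(x, z) = 0` over `k` of total degree at most two (any number of unknowns `z`) has only
solutions with `x ∈ B` then `x` takes at most two values.

Proof. The ball is flat: a rational function in one variable over `k` all of whose values are in the ball is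
constant. The general theorems on flat sets for families of quadratic equations (`Pool.Agent.R565.QF`),
one quantifier and algebraic witnesses (`Pool.Agent.N455.PR`, helper455), which were proved for the pole
relation (MP_a59382_lc), hold for all fields of characteristic zero. The preimages of thin sets under
fractional linear transformations are thin.
-/

set_option autoImplicit false

namespace Pool.Agent.Results.MP_c40b92_nt.QuadricFamilies

open MvPolynomial Pool.Agent.TH783.CE Pool.Agent.TH783.UB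
open Pool.Agent.Results.MP_c40b92_nt.QuarticDoubleCovers (Block values Union)
open Pool.Agent.N230.QT (AlgWit thin_quad thin_wit thin_inv thin_aff)

/-- The union of the sets `{x | ∃ w z, g i (x, w, z) = 0}`. -/
def Quadrics {k : Type} [Field k] {h : ℕ} {m : Fin h → ℕ}
    (g : ∀ i, MvPolynomial (Fin 2 ⊕ Fin (m i)) k) : Set k :=
  {x | ∃ i, ∃ (w : k) (z : Fin (m i) → k), eval (Sum.elim ![x, w] z) (g i) = 0}

/-- The union of the sets `{x | ∃ w, B i (G i j (x, w) = 0)_j}`. -/
def Formulas {k : Type} [Field k] {u : ℕ} {c v : Fin u → ℕ}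
    (G : ∀ i, Fin (v i) → MvPolynomial (Fin (c i + 1)) k) (B : ∀ i, (Fin (v i) → Prop) → Prop) :
    Set k :=
  {x | ∃ i, ∃ w : Fin (c i) → k, B i fun j => eval (Fin.cons x w : Fin (c i + 1) → k) (G i j) = 0}

theorem result :
    -- (1) the closed unit ball is not such a union
    (∀ (k : Type) [Field k] [NumberField k] (σ : k →+* ℂ), (∃ z : k, (σ z).im ≠ 0) →
      ∀ (r l h u : ℕ) (n : Fin r → ℕ) (f : ∀ i, MvPolynomial (Fin (n i + 1)) k),
      (∀ i, (f i).totalDegree ≤ 3) →
      ∀ (s : Fin l → ℕ) (d : ∀ i, Fin (s i) → ℕ) (S : ∀ i, ∀ j, Set (Fin (d i j + 1) → k)),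
      (∀ i j, Block (S i j)) →
      ∀ (p q : ∀ i, MvPolynomial ((j : Fin (s i)) × Fin (d i j + 1)) k)
        (m : Fin h → ℕ) (g : ∀ i, MvPolynomial (Fin 2 ⊕ Fin (m i)) k),
      (∀ i, ∀ e ∈ (g i).support, e (Sum.inl 0) + ∑ j, e (Sum.inr j) ≤ 2) →
      ∀ (c v : Fin u → ℕ) (G : ∀ i, Fin (v i) → MvPolynomial (Fin (c i + 1)) k)
        (B : ∀ i, (Fin (v i) → Prop) → Prop), (∀ i, AlgWit (G i) (B i)) →
      Union n f s d S p q ∪ Quadrics g ∪ Formulas G B ≠ {x : k | ‖σ x‖ ≤ 1}) ∧
    -- (2) such unions in the ball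
    (∀ (k : Type) [Field k] [NumberField k] (σ : k →+* ℂ), (∃ z : k, (σ z).im ≠ 0) →
      ∀ (r l h u : ℕ) (n : Fin r → ℕ) (f : ∀ i, MvPolynomial (Fin (n i + 1)) k),
      (∀ i, (f i).totalDegree ≤ 3) →
      ∀ (s : Fin l → ℕ) (d : ∀ i, Fin (s i) → ℕ) (S : ∀ i, ∀ j, Set (Fin (d i j + 1) → k)),
      (∀ i j, Block (S i j)) →
      ∀ (p q : ∀ i, MvPolynomial ((j : Fin (s i)) × Fin (d i j + 1)) k)
        (m : Fin h → ℕ) (g : ∀ i, MvPolynomial (Fin 2 ⊕ Fin (m i)) k),
      (∀ i, ∀ e ∈ (g i).support, e (Sum.inl 0) + ∑ j, e (Sum.inr j) ≤ 2) →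
      ∀ (c v : Fin u → ℕ) (G : ∀ i, Fin (v i) → MvPolynomial (Fin (c i + 1)) k)
        (B : ∀ i, (Fin (v i) → Prop) → Prop), (∀ i, AlgWit (G i) (B i)) →
      ∀ D : Set k, D = Union n f s d S p q ∪ Quadrics g ∪ Formulas G B →
      D ⊆ {x : k | ‖σ x‖ ≤ 1} →
      Thin D ∧ ∀ x₀ c : k, c ≠ 0 → Thin {t : k | t ≠ 0 ∧ x₀ + c / t ∈ D} ∧
        ∀ b : ℤ, ∃ m : ℤ, b < m ∧ x₀ + c / (m : k) ∉ D) ∧
    -- (3) one quadratic equation
    (∀ (k : Type) [Field k] [NumberField k] (σ : k →+* ℂ), (∃ z : k, (σ z).im ≠ 0) →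
      ∀ (n : ℕ) (f : MvPolynomial (Fin (n + 1)) k), f.totalDegree ≤ 2 →
      (∀ z, eval z f = 0 → ‖σ (z 0)‖ ≤ 1) →
      ∃ e₁ e₂ : k, ∀ z, eval z f = 0 → z 0 = e₁ ∨ z 0 = e₂) := by
  have main : ∀ (k : Type) [Field k] [NumberField k] (σ : k →+* ℂ), (∃ z : k, (σ z).im ≠ 0) →
      ∀ (r l h u : ℕ) (n : Fin r → ℕ) (f : ∀ i, MvPolynomial (Fin (n i + 1)) k),
      (∀ i, (f i).totalDegree ≤ 3) →
      ∀ (s : Fin l → ℕ) (d : ∀ i, Fin (s i) → ℕ) (S : ∀ i, ∀ j, Set (Fin (d i j + 1) → k)),
      (∀ i j, Block (S i j)) →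
      ∀ (p q : ∀ i, MvPolynomial ((j : Fin (s i)) × Fin (d i j + 1)) k)
        (m : Fin h → ℕ) (g : ∀ i, MvPolynomial (Fin 2 ⊕ Fin (m i)) k),
      (∀ i, ∀ e ∈ (g i).support, e (Sum.inl 0) + ∑ j, e (Sum.inr j) ≤ 2) →
      ∀ (c v : Fin u → ℕ) (G : ∀ i, Fin (v i) → MvPolynomial (Fin (c i + 1)) k)
        (B : ∀ i, (Fin (v i) → Prop) → Prop), (∀ i, AlgWit (G i) (B i)) →
      ∀ D : Set k, D = Union n f s d S p q ∪ Quadrics g ∪ Formulas G B →
      D ⊆ {x : k | ‖σ x‖ ≤ 1} →
      Thin D ∧ ∀ x₀ c : k, c ≠ 0 → Thin {t : k | t ≠ 0 ∧ x₀ + c / t ∈ D} ∧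
        ∀ b : ℤ, ∃ m : ℤ, b < m ∧ x₀ + c / (m : k) ∉ D := by
    rintro k _ _ σ ⟨w₀, hw₀⟩ r l h u n f hf s d S hS p q m g hg c v G B hGB D rfl hsub
    have hflat := flat_ball σ hw₀
    have t1 : Thin (Union n f s d S p q) :=
      (QuarticDoubleCovers.result.2 k σ ⟨w₀, hw₀⟩ r l n f hf s d S hS p q
        fun x hx => hsub (Or.inl (Or.inl hx))).2.1
    have t2 : Thin (Quadrics g) := by
      have : Quadrics g = ⋃ i ∈ (Set.univ : Set (Fin h)), {x : k | ∃ (w : k)
          (z : Fin (m i) → k), eval (Sum.elim ![x, w] z) (g i) = 0} := by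
        ext x
        simp [Quadrics]
      rw [this]
      refine Thin.biUnion Set.finite_univ fun i _ => ?_
      exact thin_quad hflat (g i) (hg i) fun x w z hz => hsub (Or.inl (Or.inr ⟨i, w, z, hz⟩))
    have t3 : Thin (Formulas G B) := by
      have : Formulas G B = ⋃ i ∈ (Set.univ : Set (Fin u)), {x : k |
          ∃ w : Fin (c i) → k,
            B i fun j => eval (Fin.cons x w : Fin (c i + 1) → k) (G i j) = 0} := by
        ext x
        simp [Formulas]
      rw [this]
      refine Thin.biUnion Set.finite_univ fun i _ => ?_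
      exact thin_wit hflat (G i) (B i) (hGB i) fun x w hw => hsub (Or.inr ⟨i, w, hw⟩)
    have hthin := (t1.union t2).union t3
    refine ⟨hthin, fun x₀ c hc => ?_⟩
    have h1 : Thin {t : k | t ≠ 0 ∧ x₀ + c / t ∈
        Union n f s d S p q ∪ Quadrics g ∪ Formulas G B} := by
      have h2 := thin_inv (thin_aff hthin (β := x₀) hc)
      refine h2.mono ?_
      rintro t ⟨ht, ht'⟩
      refine ⟨ht, ?_⟩
      rw [div_eq_mul_inv] at ht'
      exact ht'
    refine ⟨h1, fun b => ?_⟩
    obtain ⟨m', hm, hm'⟩ := h1.exists_int (max b 0)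
    refine ⟨m', (le_max_left _ _).trans_lt hm, fun h3 => hm' ⟨?_, h3⟩⟩
    exact Int.cast_ne_zero.2 ((le_max_right _ _).trans_lt hm).ne'
  refine ⟨fun k _ _ σ hσ r l h u n f hf s d S hS p q m g hg c v G B hGB heq => ?_, main, ?_⟩
  · obtain ⟨-, h2⟩ := main k σ hσ r l h u n f hf s d S hS p q m g hg c v G B hGB _ rfl heq.subset
    obtain ⟨m', hm, hm'⟩ := (h2 0 1 one_ne_zero).2 1
    refine hm' ?_
    rw [heq, zero_add, one_div]
    show ‖σ (m' : k)⁻¹‖ ≤ 1
    rw [map_inv₀, map_intCast, norm_inv]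
    refine inv_le_one_of_one_le₀ ?_
    rw [Complex.norm_intCast]
    exact_mod_cast (hm.le.trans (le_abs_self m'))
  · rintro k _ _ σ ⟨w₀, hw₀⟩ n f hf h
    exact Pool.Agent.R565.QF.two_param (flat_ball σ hw₀) f hf h

end Pool.Agent.Results.MP_c40b92_nt.QuadricFamilies
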